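import Pool.Agent.Helper15.GS.GoalsD

/-!
# CMPG: comparison of `H` and `h`
-/

open Complex Metric Set Filter Topology MeasureTheory
open scoped ContDiff ComplexConjugate ComplexOrder Manifold Matrix

namespace Pool.Agent.Helper65.GS

open Pool.Agent.Helper95.Lin Pool.Agent.Helper16.Abund Pool.Agent.Helper92.Orb
  Pool.Agent.Helper10.SP Pool.Agent.Helper95.RK Pool.Agent.Helper57.HS
  Pool.Agent.Helper15.HS Pool.Agent.Helper15.GS

universe u

/-- Comparison of `H` and `h`. -/
theorem cmpg (hRHB : S_RHB.{u}) : S_CMPG.{u} := by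
  intro n T G _ R H h hK hh
  have hH : HerT T R H := ⟨hK.posDef, hK.smooth, hK.inv⟩
  obtain ⟨K, hK0, hKb⟩ := hRHB T R H hK.et hH h (fun x hx => (hh.posDef x hx).1)
    (fun i j => (hh.smooth i j).continuousOn) hh.inv
  obtain ⟨C, hC0, hCb⟩ := hRHB T R h hK.et hh H (fun x hx => (hK.posDef x hx).1)
    (fun i j => (hK.smooth i j).continuousOn) hK.inv
  refine ⟨1 / K, C, by positivity, hC0, fun x hx => ⟨?_, (hCb x hx).2⟩⟩
  have h1 : H x - ((1 / K : ℝ) : ℂ) • h x = ((1 / K : ℝ) : ℂ) • ((K : ℂ) • H x - h x) := by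
    rw [smul_sub, smul_smul, ← Complex.ofReal_mul, one_div, inv_mul_cancel₀ hK0.ne',
      Complex.ofReal_one, one_smul]
  rw [h1]
  refine (hKb x hx).2.smul ?_
  rw [Complex.zero_le_real]
  positivity

end Pool.Agent.Helper65.GS
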